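import Mathlib
import Pool.Agent.V11215.SHDefs
import Pool.Agent.V11215.SHA
import Pool.Agent.V11215.SHD

open MeasureTheory Filter Topology Set Pool.Agent.V11215.SH

namespace Pool.Agent.Results.MP_7fd9c6_an.ShadowingOnMeasureCenter

/-- Almost specification passes to every invariant set that contains the measure center; average
shadowing and asymptotic average shadowing do not pass to compact invariant sets that contain the
measure center. -/
theorem result :
    (∀ (X : Type*) [MetricSpace X] [CompactSpace X] [MeasurableSpace X] [BorelSpace X]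
      (f : X → X), Continuous f → AS f → ∀ (A : Set X) (hA : MapsTo f A A),
        measureCenter f ⊆ A → AS (hA.restrict f A A)) ∧
    (∃ (X : Type) (_ : MetricSpace X) (_ : CompactSpace X) (_ : MeasurableSpace X)
      (_ : BorelSpace X) (f : X → X), Continuous f ∧ ASP f ∧ AASP f ∧
      ∃ (A : Set X) (hA : MapsTo f A A), IsCompact A ∧ measureCenter f ⊆ A ∧
        ¬ ASP (hA.restrict f A A) ∧ ¬ AASP (hA.restrict f A A)) :=
  ⟨fun _ _ _ _ _ f hf hAS A hA hM => AS_restrict f hf hAS A hA hM, exists_counterexample⟩

end Pool.Agent.Results.MP_7fd9c6_an.ShadowingOnMeasureCenter
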